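import Pool.Agent.Lib.MP_06e9af_co.Defs

/-!
Stars with some subdivided edges.
-/

namespace Pool.Agent.Lib.MP_06e9af_co

/-- The star with centre `0` and `d` edges (to `1, …, d`) in which the first `g` edges are
prolonged: the vertex `i` with `1 ≤ i ≤ g` is also adjacent to `i + d`. -/
def spider (d g : ℕ) : SimpleGraph (Fin (d + g + 1)) :=
  SimpleGraph.fromRel (fun a b => (a.val = 0 ∧ b.val ≤ d) ∨ (1 ≤ a.val ∧ b.val = a.val + d))

end Pool.Agent.Lib.MP_06e9af_co
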