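import Pool.Agent.Lib.MP_06e9af_co.Sp.Defs

/-!
Embedding and non-embedding criteria for subdivided stars.
-/

namespace Pool.Agent.Lib.MP_06e9af_co.Sp

open Finset

variable {V : Type} [Fintype V] [DecidableEq V]

open Classical in
/-- The neighbours of a vertex. -/
noncomputable def nb (G : SimpleGraph V) (u : V) : Finset V := univ.filter (G.Adj u)

omit [DecidableEq V] in
theorem mem_nb {G : SimpleGraph V} {u w : V} : w ∈ nb G u ↔ G.Adj u w := by simp [nb]

theorem nb_add (G : SimpleGraph V) (u : V) :
    (nb G u).card + (nb Gᶜ u).card + 1 = Fintype.card V := by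
  have h1 : Disjoint (nb G u) (nb Gᶜ u) := by
    rw [disjoint_left]
    intro w a b
    rw [mem_nb] at a b
    exact b.2 a
  have h2 : nb G u ∪ nb Gᶜ u = univ.erase u := by
    ext w
    simp only [mem_union, mem_nb, mem_erase, mem_univ, and_true, SimpleGraph.compl_adj]
    constructor
    · rintro (h | h)
      exacts [h.ne.symm, h.1.symm]
    · intro h
      by_cases k : G.Adj u w
      exacts [Or.inl k, Or.inr ⟨h.symm, k⟩]
  rw [← card_union_of_disjoint h1, h2, card_erase_of_mem (mem_univ _), card_univ]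
  have : 0 < Fintype.card V := Fintype.card_pos_iff.2 ⟨u⟩
  omega

omit [Fintype V] in
/-- A matching of size `g`, or a small cover. -/
theorem match_or_cover (u : V) (r : V → V → Prop) (g : ℕ) :
    (∃ a b : ℕ → V, (∀ i < g, r (a i) (b i)) ∧
      ∀ i < g, ∀ j < g, i ≠ j → a i ≠ a j ∧ a i ≠ b j ∧ b i ≠ b j) ∨
    ∃ K : Finset V, K.card + 2 ≤ 2 * g ∧ ∀ a b, r a b → a ∈ K ∨ b ∈ K := by
  induction g with
  | zero => exact Or.inl ⟨fun _ => u, fun _ => u, by simp, by simp⟩
  | succ g ih =>
    rcases ih with ⟨a, b, h1, h2⟩ | ⟨K, h1, h2⟩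
    swap
    · exact Or.inr ⟨K, by omega, h2⟩
    by_cases hc : ∀ x y, r x y → x ∈ (range g).image a ∪ (range g).image b ∨
        y ∈ (range g).image a ∪ (range g).image b
    · refine Or.inr ⟨_, ?_, hc⟩
      have e1 := card_union_le ((range g).image a) ((range g).image b)
      have e2 : ((range g).image a).card ≤ g := card_image_le.trans (card_range g).le
      have e3 : ((range g).image b).card ≤ g := card_image_le.trans (card_range g).le
      omega
    · push Not at hc
      obtain ⟨x, y, hxy, hx, hy⟩ := hc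
      simp only [mem_union, mem_image, mem_range, not_or, not_exists, not_and] at hx hy
      refine Or.inl ⟨fun i => if i = g then x else a i, fun i => if i = g then y else b i,
        fun i hi => ?_, fun i hi j hj hij => ?_⟩
      · by_cases e : i = g
        · simpa [e] using hxy
        · simpa [e] using h1 i (by omega)
      · by_cases e : i = g
        · have e' : j ≠ g := fun k => hij (e.trans k.symm)
          simp only [e, e', if_true, if_false]
          exact ⟨Ne.symm (hx.1 j (by omega)), Ne.symm (hx.2 j (by omega)),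
            Ne.symm (hy.2 j (by omega))⟩
        · by_cases e' : j = g
          · simp only [e, e', if_true, if_false]
            exact ⟨hx.1 i (by omega), hy.1 i (by omega), hy.2 i (by omega)⟩
          · simp only [e, e', if_false]
            exact h2 i (by omega) j (by omega) hij

omit [Fintype V] [DecidableEq V] in
theorem enum (u : V) {S : Finset V} {k : ℕ} (h : k ≤ S.card) :
    ∃ l : ℕ → V, (∀ i < k, l i ∈ S) ∧ ∀ i < k, ∀ j < k, l i = l j → i = j := by
  refine ⟨fun i => if hi : i < S.card then (S.equivFin.symm ⟨i, hi⟩).1 else u,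
    fun i hi => ?_, fun i hi j hj e => ?_⟩
  · simp only [dif_pos (hi.trans_le h)]
    exact (S.equivFin.symm _).2
  · simp only [dif_pos (hi.trans_le h), dif_pos (hj.trans_le h)] at e
    have := S.equivFin.symm.injective (Subtype.ext e)
    exact congrArg Fin.val this

theorem embed {G : SimpleGraph V} {d g : ℕ} (hgd : g ≤ d) {u : V} {a b : ℕ → V}
    (h1 : ∀ i < g, G.Adj u (a i) ∧ G.Adj (a i) (b i) ∧ b i ≠ u)
    (h2 : ∀ i < g, ∀ j < g, i ≠ j → a i ≠ a j ∧ a i ≠ b j ∧ b i ≠ b j)
    (h3 : d + g ≤ (nb G u).card ∨ (d ≤ (nb G u).card ∧ ∀ i < g, ¬ G.Adj u (b i))) :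
    (spider d g).IsContained G := by
  have e2 : ((range g).image a).card ≤ g := card_image_le.trans (card_range g).le
  have e3 : ((range g).image b).card ≤ g := card_image_le.trans (card_range g).le
  have hS : d - g ≤ ((nb G u \ (range g).image b) \ (range g).image a).card := by
    have k1 := le_card_sdiff ((range g).image a) (nb G u \ (range g).image b)
    rcases h3 with h | ⟨h, h'⟩
    · have k2 := le_card_sdiff ((range g).image b) (nb G u)
      omega
    · have : nb G u \ (range g).image b = nb G u := by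
        rw [Finset.sdiff_eq_self_iff_disjoint, disjoint_right]
        intro w hw hw'
        obtain ⟨i, hi, rfl⟩ := mem_image.1 hw
        exact h' i (mem_range.1 hi) (mem_nb.1 hw')
      rw [this] at k1 ⊢
      omega
  obtain ⟨l, l1, l2⟩ := enum u hS
  simp only [mem_sdiff, mem_nb, mem_image, mem_range, not_exists, not_and] at l1
  let f : ℕ → V := fun i =>
    if i = 0 then u else if i ≤ g then a (i - 1) else if i ≤ d then l (i - g - 1)
    else b (i - d - 1)
  have f0 : f 0 = u := by simp [f]
  have fa : ∀ i, 1 ≤ i → i ≤ g → f i = a (i - 1) := fun i p q => by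
    simp only [f]; rw [if_neg (by omega), if_pos q]
  have fl : ∀ i, g < i → i ≤ d → f i = l (i - g - 1) := fun i p q => by
    simp only [f]; rw [if_neg (by omega), if_neg (by omega), if_pos q]
  have fb : ∀ i, d < i → f i = b (i - d - 1) := fun i p => by
    simp only [f]; rw [if_neg (by omega), if_neg (by omega), if_neg (by omega)]
  have adj0 : ∀ i, 1 ≤ i → i ≤ d → G.Adj u (f i) := by
    intro i p q
    by_cases k : i ≤ g
    · rw [fa i p k]; exact (h1 _ (by omega)).1
    · rw [fl i (by omega) q]; exact (l1 _ (by omega)).1.1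
  have inj : ∀ i j, i < j → j < d + g + 1 → f i ≠ f j := by
    intro i j hij hj
    by_cases i0 : i = 0
    · rw [i0, f0]
      by_cases k : j ≤ d
      · exact (adj0 j (by omega) k).ne
      · rw [fb j (by omega)]; exact (h1 _ (by omega)).2.2.symm
    by_cases ig : i ≤ g
    · rw [fa i (by omega) ig]
      by_cases jg : j ≤ g
      · rw [fa j (by omega) jg]; exact (h2 _ (by omega) _ (by omega) (by omega)).1
      by_cases jd : j ≤ d
      · rw [fl j (by omega) jd]; exact (l1 _ (by omega)).2 _ (by omega)
      · rw [fb j (by omega)]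
        by_cases e : i - 1 = j - d - 1
        · rw [← e]; exact (h1 _ (by omega)).2.1.ne
        · exact (h2 _ (by omega) _ (by omega) e).2.1
    by_cases id : i ≤ d
    · rw [fl i (by omega) id]
      by_cases jd : j ≤ d
      · rw [fl j (by omega) jd]
        intro e
        have := l2 _ (by omega) _ (by omega) e
        omega
      · rw [fb j (by omega)]
        exact Ne.symm ((l1 (i - g - 1) (by omega)).1.2 (j - d - 1) (by omega))
    · rw [fb i (by omega), fb j (by omega)]
      exact (h2 _ (by omega) _ (by omega) (by omega)).2.2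
  have key : ∀ x y : Fin (d + g + 1), x ≠ y →
      ((x.val = 0 ∧ y.val ≤ d) ∨ (1 ≤ x.val ∧ y.val = x.val + d)) → G.Adj (f x) (f y) := by
    rintro x y hxy (⟨p, q⟩ | ⟨p, q⟩)
    · have : y.val ≠ 0 := fun e => hxy (Fin.ext (p.trans e.symm))
      rw [p, f0]; exact adj0 _ (by omega) q
    · have := y.2
      rw [fa x p (by omega), fb y (by omega), show y.val - d - 1 = x.val - 1 by omega]
      exact (h1 _ (by omega)).2.1
  refine ⟨⟨⟨fun x => f x.val, fun {x y} h => ?_⟩, fun x y e => ?_⟩⟩
  · rw [spider, SimpleGraph.fromRel_adj] at h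
    rcases h.2 with k | k
    · exact key x y h.1 k
    · exact (key y x h.1.symm k).symm
  · by_contra n
    rcases lt_or_gt_of_ne (fun k => n (Fin.ext k) : x.val ≠ y.val) with k | k
    · exact inj _ _ k y.2 e
    · exact inj _ _ k x.2 e.symm

/-- Without a copy, the second edges have a small cover. -/
theorem cover {G : SimpleGraph V} {d g : ℕ} (hgd : g ≤ d) (hn : ¬ (spider d g).IsContained G)
    (u : V) (r : V → V → Prop) (h1 : ∀ a b, r a b → G.Adj u a ∧ G.Adj a b ∧ b ≠ u)
    (h3 : d + g ≤ (nb G u).card ∨ (d ≤ (nb G u).card ∧ ∀ a b, r a b → ¬ G.Adj u b)) :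
    ∃ K : Finset V, K.card + 2 ≤ 2 * g ∧ ∀ a b, r a b → a ∈ K ∨ b ∈ K := by
  rcases match_or_cover u r g with ⟨a, b, k1, k2⟩ | h
  · exact absurd (embed hgd (fun i hi => h1 _ _ (k1 i hi)) k2
      (h3.imp_right fun k => ⟨k.1, fun i hi => k.2 _ _ (k1 i hi)⟩)) hn
  · exact h

/-- Two large completely joined sets give a copy. -/
theorem small {G : SimpleGraph V} {d g : ℕ} (hgd : g ≤ d) (hn : ¬ (spider d g).IsContained G)
    (u : V) (P Q : Finset V) (h1 : ∀ a ∈ P, G.Adj u a) (h2 : ∀ b ∈ Q, b ≠ u)
    (h : ∀ a ∈ P, ∀ b ∈ Q, a ≠ b → G.Adj a b)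
    (h3 : d + g ≤ (nb G u).card ∨ (d ≤ (nb G u).card ∧ ∀ b ∈ Q, ¬ G.Adj u b)) :
    P.card < 2 * g ∨ Q.card < 2 * g := by
  obtain ⟨K, k1, k2⟩ := cover hgd hn u (fun a b => a ∈ P ∧ b ∈ Q ∧ a ≠ b)
    (fun a b k => ⟨h1 a k.1, h a k.1 b k.2.1 k.2.2, h2 b k.2.1⟩)
    (h3.imp_right fun k => ⟨k.1, fun a b j => k.2 b j.2.1⟩)
  by_contra n
  push Not at n
  obtain ⟨a, a1, a2⟩ := exists_mem_notMem_of_card_lt_card (s := K) (t := P) (by omega)
  obtain ⟨b, b1, b2⟩ := exists_mem_notMem_of_card_lt_card (s := insert a K) (t := Q)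
    (by have := card_insert_le a K; omega)
  rw [mem_insert, not_or] at b2
  rcases k2 a b ⟨a1, b1, fun e => b2.1 e.symm⟩ with k | k
  exacts [a2 k, b2.2 k]

/-- Criterion for the absence of a copy. -/
theorem no_copy {G : SimpleGraph V} {d g : ℕ} (hgd : g ≤ d)
    (h : ∀ u, (nb G u).card < d ∨ ∃ C : Finset V, (nb G u).card + C.card < d + g ∧
      ∀ a b, G.Adj u a → G.Adj a b → b ≠ u → ¬ G.Adj u b → a ∈ C ∨ b ∈ C) :
    ¬ (spider d g).IsContained G := by
  classical
  rintro ⟨⟨f, hf⟩⟩
  let F : ℕ → V := fun i => f ⟨min i (d + g), by omega⟩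
  have inj : ∀ i j, i ≤ d + g → j ≤ d + g → F i = F j → i = j := by
    intro i j hi hj e
    have := congrArg Fin.val (hf e)
    simp only at this
    omega
  have adj : ∀ i j, i ≤ d + g → j ≤ d + g → i ≠ j → ((i = 0 ∧ j ≤ d) ∨ (1 ≤ i ∧ j = i + d)) →
      G.Adj (F i) (F j) := by
    intro i j hi hj n k
    refine f.map_rel ?_
    rw [spider, SimpleGraph.fromRel_adj]
    refine ⟨fun e => ?_, Or.inl ?_⟩
    · have := congrArg Fin.val e
      simp only at this
      omega
    · simp only
      omega
  let I := (Icc (d + 1) (d + g)).filter (fun i => G.Adj (F 0) (F i))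
  let O := (Icc (d + 1) (d + g)).filter (fun i => ¬ G.Adj (F 0) (F i))
  have hIO : I.card + O.card = g := by
    rw [card_filter_add_card_filter_not, Nat.card_Icc]; omega
  have hI : d + I.card ≤ (nb G (F 0)).card := by
    have dj : Disjoint (Icc 1 d) I := by
      rw [disjoint_left]
      intro i a b
      have := mem_Icc.1 (mem_filter.1 b).1
      have := mem_Icc.1 a
      omega
    have : (Icc 1 d ∪ I).card ≤ (nb G (F 0)).card := by
      have bd : ∀ i ∈ Icc 1 d ∪ I, i ≤ d + g := by
        intro i hi
        rcases mem_union.1 hi with k | k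
        · have := mem_Icc.1 k; omega
        · exact (mem_Icc.1 (mem_filter.1 k).1).2
      refine card_le_card_of_injOn F (fun i hi => ?_) (fun i hi j hj e => inj i j (bd i hi) (bd j hj) e)
      rw [mem_coe, mem_nb]
      rcases mem_union.1 hi with k | k
      · have := mem_Icc.1 k
        exact adj 0 i (by omega) (by omega) (by omega) (Or.inl ⟨rfl, this.2⟩)
      · exact (mem_filter.1 k).2
    rw [card_union_of_disjoint dj, Nat.card_Icc] at this
    omega
  rcases h (F 0) with k | ⟨C, k1, k2⟩
  · omega
  have hO : O.card ≤ C.card := by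
    refine card_le_card_of_injOn (fun i => if F (i - d) ∈ C then F (i - d) else F i)
      (fun i hi => ?_) (fun i hi j hj e => ?_)
    · have m := mem_filter.1 (mem_coe.1 hi)
      have m1 := mem_Icc.1 m.1
      have := k2 (F (i - d)) (F i)
        (adj 0 _ (by omega) (by omega) (by omega) (Or.inl ⟨rfl, by omega⟩))
        (adj _ _ (by omega) (by omega) (by omega) (Or.inr ⟨by omega, by omega⟩))
        (fun e => by have := inj _ _ (by omega) (by omega) e; omega) m.2
      rw [mem_coe]
      by_cases c : F (i - d) ∈ C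
      · simp only [c, if_true]
      · simp only [c, if_false]; exact this.resolve_left c
    · have m1 := mem_Icc.1 (mem_filter.1 (mem_coe.1 hi)).1
      have m2 := mem_Icc.1 (mem_filter.1 (mem_coe.1 hj)).1
      simp only at e
      split_ifs at e <;> have := inj _ _ (by omega) (by omega) e <;> omega
  omega

end Pool.Agent.Lib.MP_06e9af_co.Sp
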