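import Pool.Agent.Lib.MP_06e9af_co.Sp.Emb

/-!
Lower bounds for stars with subdivided edges.
-/

namespace Pool.Agent.Lib.MP_06e9af_co.Sp

open Finset

theorem arrows_mono {α : Type} {T : SimpleGraph α} {M N : ℕ} (h : M ≤ N) (hM : Arrows T M) :
    Arrows T N := by
  intro G
  rcases hM (G.comap (Fin.castLE h)) with ⟨⟨f, hf⟩⟩ | ⟨⟨f, hf⟩⟩
  · exact Or.inl ⟨⟨⟨fun a => Fin.castLE h (f a), fun k => f.map_rel k⟩,
      (Fin.castLE_injective h).comp hf⟩⟩
  · refine Or.inr ⟨⟨⟨fun a => Fin.castLE h (f a), fun k => ?_⟩,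
      (Fin.castLE_injective h).comp hf⟩⟩
    have := f.map_rel k
    exact ⟨fun e => this.1 (Fin.castLE_injective h e), this.2⟩

theorem card_le_of_val {N : ℕ} (S : Finset (Fin N)) (T : Finset ℕ) (f : ℕ → ℕ)
    (h1 : ∀ a ∈ S, f a.val ∈ T) (h2 : ∀ a ∈ S, ∀ b ∈ S, f a.val = f b.val → a.val = b.val) :
    S.card ≤ T.card :=
  card_le_card_of_injOn (fun a => f a.val) h1 (fun a ha b hb e => Fin.ext (h2 a ha b hb e))

/-- A circulant colouring with small degrees in both colours. -/
theorem lower {d g L : ℕ} (hgd : g ≤ d) (hd : 2 ≤ d)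
    (hL : L + 1 = if Even d then 2 * d - 1 else 2 * d) : ¬ Arrows (spider d g) L := by
  intro h
  obtain ⟨m, m1, m2⟩ : ∃ m, 2 * m < d ∧ L ≤ 2 * m + d := by
    refine ⟨(d - 1) / 2, by omega, ?_⟩
    split_ifs at hL with e
    · obtain ⟨k, rfl⟩ := e; omega
    · obtain ⟨k, rfl⟩ := Nat.not_even_iff_odd.1 e; omega
  have hL' : d ≤ L := by split_ifs at hL <;> omega
  let G : SimpleGraph (Fin L) :=
    { Adj := fun a b => a.val ≠ b.val ∧ ((a.val ≤ b.val + m ∧ b.val ≤ a.val + m) ∨
        a.val + L ≤ b.val + m ∨ b.val + L ≤ a.val + m)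
      symm := ⟨fun a b k => by omega⟩
      loopless := ⟨fun a k => k.1 rfl⟩ }
  have adj : ∀ a b, G.Adj a b ↔ a.val ≠ b.val ∧ ((a.val ≤ b.val + m ∧ b.val ≤ a.val + m) ∨
        a.val + L ≤ b.val + m ∨ b.val + L ≤ a.val + m) := fun _ _ => Iff.rfl
  rcases h G with k | k
  · refine no_copy hgd (fun u => Or.inl ?_) k
    have := card_le_of_val (nb G u) (Icc 1 m ∪ Ico (L - m) L)
      (fun b => if u.val ≤ b then b - u.val else b + L - u.val)
      (fun a ha => by
        have := (adj _ _).1 (mem_nb.1 ha)
        have := a.2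
        have := u.2
        simp only [mem_union, mem_Icc, mem_Ico]
        split_ifs <;> omega)
      (fun a _ b _ e => by
        have := a.2
        have := b.2
        have := u.2
        split_ifs at e <;> omega)
    have e := card_union_le (Icc 1 m) (Ico (L - m) L)
    rw [Nat.card_Icc, Nat.card_Ico] at e
    omega
  · refine no_copy hgd (fun u => Or.inl ?_) k
    have := card_le_of_val (nb Gᶜ u) (Ico (m + 1) (L - m))
      (fun b => if u.val ≤ b then b - u.val else b + L - u.val)
      (fun a ha => by
        have j := mem_nb.1 ha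
        have j1 : u.val ≠ a.val := fun e => j.1 (Fin.ext e)
        have j2 := mt (adj _ _).2 j.2
        have := a.2
        have := u.2
        simp only [mem_Ico]
        split_ifs <;> omega)
      (fun a _ b _ e => by
        have := a.2
        have := b.2
        have := u.2
        split_ifs at e <;> omega)
    rw [Nat.card_Ico] at this
    omega

theorem blocks {d a m c : ℕ} (hd : 1 ≤ d) (hs : d ≤ m * c) :
    ∃ z y : ℕ → ℕ, (∀ b, b < 2 * d - 1 + a → z b + a + 1 ≤ m * (a + 1)) ∧
      ∀ u b, d + a ≤ b → z b ≤ u → u < z b + a + 1 → y u ≤ b ∧ b < y u + c := by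
  have c0 : 0 < c := Nat.pos_of_ne_zero (fun e => by rw [e] at hs; omega)
  refine ⟨fun b => (b - (d + a)) / c * (a + 1), fun u => d + a + u / (a + 1) * c,
    fun b hb => ?_, fun u b hb h1 h2 => ?_⟩
  · have : (b - (d + a)) / c < m := by rw [Nat.div_lt_iff_lt_mul c0]; omega
    have := Nat.mul_le_mul_right (a + 1) (Nat.succ_le_of_lt this)
    rw [Nat.succ_mul] at this
    exact this
  · have e : u / (a + 1) = (b - (d + a)) / c :=
      Nat.div_eq_of_lt_le h1 (by rw [Nat.succ_mul]; exact h2)
    have e1 := Nat.div_add_mod (b - (d + a)) c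
    have e2 := Nat.mod_lt (b - (d + a)) c0
    rw [mul_comm] at e1
    show d + a + u / (a + 1) * c ≤ b ∧ b < d + a + u / (a + 1) * c + c
    rw [e]
    generalize (b - (d + a)) / c * c = z at e1 ⊢
    omega

/-- Two red cliques with a sparse red bipartite graph that has a small cover. -/
theorem threshold {d g a m c : ℕ} (hg : 1 ≤ g) (hs : d ≤ m * c)
    (hsg : a + 2 * c + m * (a + 1) ≤ g) (hgd : g ≤ d) :
    ¬ Arrows (spider d g) (2 * d - 1 + a) := by
  intro h
  obtain ⟨z, y, q1, q2⟩ := blocks (a := a) (hg.trans hgd) hs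
  generalize m * (a + 1) = κ at hsg q1
  let G : SimpleGraph (Fin (2 * d - 1 + a)) :=
    { Adj := fun u w => u.val ≠ w.val ∧ ((u.val < d + a ∧ w.val < d + a) ∨
        (d + a ≤ u.val ∧ d + a ≤ w.val) ∨
        (u.val < d + a ∧ d + a ≤ w.val ∧ z w.val ≤ u.val ∧ u.val < z w.val + a + 1) ∨
        (w.val < d + a ∧ d + a ≤ u.val ∧ z u.val ≤ w.val ∧ w.val < z u.val + a + 1))
      symm := ⟨fun u w k => by omega⟩
      loopless := ⟨fun u k => k.1 rfl⟩ }
  have adj : ∀ u w, G.Adj u w ↔ u.val ≠ w.val ∧ ((u.val < d + a ∧ w.val < d + a) ∨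
        (d + a ≤ u.val ∧ d + a ≤ w.val) ∨
        (u.val < d + a ∧ d + a ≤ w.val ∧ z w.val ≤ u.val ∧ u.val < z w.val + a + 1) ∨
        (w.val < d + a ∧ d + a ≤ u.val ∧ z u.val ≤ w.val ∧ w.val < z u.val + a + 1)) :=
    fun _ _ => Iff.rfl
  have cK : (univ.filter (fun w : Fin (2 * d - 1 + a) => w.val < κ)).card ≤ κ := by
    have := card_le_of_val (univ.filter (fun w : Fin (2 * d - 1 + a) => w.val < κ)) (range κ)
      id (fun w hw => by simpa using hw) (fun _ _ _ _ e => e)
    rwa [card_range] at this
  rcases h G with k | k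
  · refine no_copy hgd (fun u => Or.inr ?_) k
    by_cases hu : u.val < d + a
    · let B : Finset (Fin (2 * d - 1 + a)) :=
        univ.filter (fun w => d + a ≤ w.val ∧ z w.val ≤ u.val ∧ u.val < z w.val + a + 1)
      have cB : B.card ≤ c := by
        have := card_le_of_val B (Ico (y u.val) (y u.val + c)) id
          (fun w hw => by
            have j := (mem_filter.1 hw).2
            exact mem_Ico.2 (q2 _ _ j.1 j.2.1 j.2.2))
          (fun _ _ _ _ e => e)
        rw [Nat.card_Ico] at this
        omega
      have cX : (nb G u \ B).card + 1 ≤ d + a := by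
        have := card_le_of_val (nb G u \ B) ((range (d + a)).erase u.val) id
          (fun w hw => by
            have j := (adj _ _).1 (mem_nb.1 (mem_sdiff.1 hw).1)
            have j' : ¬ (d + a ≤ w.val ∧ z w.val ≤ u.val ∧ u.val < z w.val + a + 1) :=
              fun i => (mem_sdiff.1 hw).2 (mem_filter.2 ⟨mem_univ _, i⟩)
            simp only [mem_erase, mem_range, id]
            omega)
          (fun _ _ _ _ e => e)
        rw [card_erase_of_mem (mem_range.2 hu), card_range] at this
        omega
      have c1 := le_card_sdiff B (nb G u)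
      have c2 := card_union_le (univ.filter (fun w : Fin (2 * d - 1 + a) => w.val < κ)) B
      refine ⟨univ.filter (fun w : Fin (2 * d - 1 + a) => w.val < κ) ∪ B, by omega,
        fun p w j1 j2 j3 j4 => Or.inl ?_⟩
      have j3' : w.val ≠ u.val := fun e => j3 (Fin.ext e)
      rw [adj] at j1 j2 j4
      have := q1 w.val w.2
      simp only [B, mem_union, mem_filter, mem_univ, true_and]
      omega
    · have cN : (nb G u).card + 1 ≤ d + a := by
        have := card_le_of_val (nb G u)
          ((Ico (d + a) (2 * d - 1 + a)).erase u.val ∪ Ico (z u.val) (z u.val + a + 1)) id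
          (fun w hw => by
            have j := (adj _ _).1 (mem_nb.1 hw)
            have := w.2
            simp only [mem_union, mem_erase, mem_Ico, id]
            omega)
          (fun _ _ _ _ e => e)
        have e := card_union_le ((Ico (d + a) (2 * d - 1 + a)).erase u.val)
          (Ico (z u.val) (z u.val + a + 1))
        have := u.2
        rw [card_erase_of_mem (mem_Ico.2 (by omega)), Nat.card_Ico, Nat.card_Ico] at e
        omega
      refine ⟨univ.filter (fun w : Fin (2 * d - 1 + a) => w.val < κ), by omega,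
        fun p w j1 j2 j3 j4 => ?_⟩
      have j3' : w.val ≠ u.val := fun e => j3 (Fin.ext e)
      rw [adj] at j1 j2 j4
      have := q1 p.val p.2
      have := q1 u.val u.2
      simp only [mem_filter, mem_univ, true_and]
      omega
  · refine no_copy hgd (fun u => Or.inl ?_) k
    have na : ∀ w ∈ nb Gᶜ u, u.val ≠ w.val ∧ ¬ G.Adj u w :=
      fun w hw => ⟨fun e => (mem_nb.1 hw).1 (Fin.ext e), (mem_nb.1 hw).2⟩
    by_cases hu : u.val < d + a
    · have := card_le_of_val (nb Gᶜ u) (Ico (d + a) (2 * d - 1 + a)) id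
        (fun w hw => by
          have j := na w hw
          rw [adj] at j
          have := w.2
          simp only [mem_Ico, id]
          omega)
        (fun _ _ _ _ e => e)
      rw [Nat.card_Ico] at this
      omega
    · have := card_le_of_val (nb Gᶜ u) (range (z u.val) ∪ Ico (z u.val + a + 1) (d + a)) id
        (fun w hw => by
          have j := na w hw
          rw [adj] at j
          simp only [mem_union, mem_range, mem_Ico, id]
          omega)
        (fun _ _ _ _ e => e)
      have e := card_union_le (range (z u.val)) (Ico (z u.val + a + 1) (d + a))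
      have := q1 u.val u.2
      rw [card_range, Nat.card_Ico] at e
      omega

end Pool.Agent.Lib.MP_06e9af_co.Sp
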