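import Pool.Agent.Lib.MP_06e9af_co.Sp.Emb

/-!
The upper bound for stars with few subdivided edges.
-/

namespace Pool.Agent.Lib.MP_06e9af_co.Sp

open Finset

variable {V : Type} [Fintype V] [DecidableEq V]

omit [Fintype V] in
theorem part_card (S X Y K : Finset V) (h : ∀ w, w ∈ X ∨ w ∈ Y ∨ w ∈ K) :
    S.card ≤ (S ∩ X).card + (S ∩ Y).card + (S ∩ K).card := by
  have : S ⊆ S ∩ X ∪ S ∩ Y ∪ S ∩ K := by
    intro w hw
    simp only [mem_union, mem_inter, hw, true_and]
    have := h w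
    tauto
  have e1 := card_le_card this
  have e2 := card_union_le (S ∩ X ∪ S ∩ Y) (S ∩ K)
  have e3 := card_union_le (S ∩ X) (S ∩ Y)
  omega

theorem side_card (G : SimpleGraph V) (k : V) (X : Finset V) :
    X.card ≤ (nb G k ∩ X).card + (nb Gᶜ k ∩ X).card + 1 := by
  have : X ⊆ insert k (nb G k ∩ X ∪ nb Gᶜ k ∩ X) := by
    intro w hw
    simp only [mem_insert, mem_union, mem_inter, hw, and_true, mem_nb, SimpleGraph.compl_adj]
    by_cases e : w = k
    · exact Or.inl e
    · by_cases j : G.Adj k w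
      exacts [Or.inr (Or.inl j), Or.inr (Or.inr ⟨Ne.symm e, j⟩)]
  have e1 := card_le_card this
  have e2 := card_insert_le k (nb G k ∩ X ∪ nb Gᶜ k ∩ X)
  have e3 := card_union_le (nb G k ∩ X) (nb Gᶜ k ∩ X)
  omega

theorem arith {d g a x y k s t e : ℕ} (hg : 1 ≤ g) (hd : 6 * g ^ 2 ≤ (a + 1) * d)
    (ht : y + t + 1 = d) (hs : x + s + 1 = d) (he : e + g + k = d) (hk : k + 2 ≤ 2 * g)
    (hN : 2 * d + a ≤ x + y + k + 1) (l1 : k * e ≤ x * t + y * s) : False := by
  obtain ⟨c, rfl⟩ : ∃ c, k = c + a + 1 := ⟨k - a - 1, by omega⟩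
  obtain ⟨D, rfl⟩ : ∃ D, d = D + 1 := ⟨d - 1, by omega⟩
  obtain ⟨h, rfl⟩ : ∃ h, g = h + 1 := ⟨g - 1, by omega⟩
  have v1 : x * t ≤ D * t := Nat.mul_le_mul_right _ (by omega)
  have v2 : y * s ≤ D * s := Nat.mul_le_mul_right _ (by omega)
  have v3 : D * (t + s) ≤ D * c := Nat.mul_le_mul_left _ (by omega)
  have v4 : (c + a + 1) * e ≤ D * c := by rw [mul_add] at v3; omega
  have v5 : D = e + (h + 1 + (c + a)) := by omega
  have v6 : (c + a + 1) * (h + 1 + (c + a)) ≤ (2 * h) * (3 * h) :=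
    Nat.mul_le_mul (by omega) (by omega)
  have v7 : (c + a + 1) * D = (c + a + 1) * e + (c + a + 1) * (h + 1 + (c + a)) := by
    rw [v5]; ring
  have v8 : (c + a + 1) * D + a + 1 = D * c + (a + 1) * (D + 1) := by ring
  have v9 : 6 * (h + 1) ^ 2 = 2 * h * (3 * h) + 12 * h + 6 := by ring
  omega

theorem lin {d g : ℕ} (hg : 1 ≤ g) (hd : 6 * g ^ 2 ≤ d) : 7 * g ≤ d + 1 := by
  rcases Nat.eq_or_lt_of_le hg with e | e
  · subst e; omega
  · have : 2 * g ≤ g ^ 2 := by rw [sq]; exact Nat.mul_le_mul_right _ e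
    omega

/-- Two large sides completely joined in `B` and a small rest. -/
theorem final {B : SimpleGraph V} {d g a : ℕ} (hg : 1 ≤ g) (hlin : 7 * g ≤ d + 1)
    (hd : 6 * g ^ 2 ≤ (a + 1) * d) (hN : 2 * d + a ≤ Fintype.card V + 1)
    (hn : ¬ (spider d g).IsContained B)
    (m1 : ∀ u, (nb B u).card < d + g) (m2 : ∀ u, (nb Bᶜ u).card < d + g)
    {X Y K : Finset V} (hall : ∀ w, w ∈ X ∨ w ∈ Y ∨ w ∈ K) (dXK : Disjoint X K)
    (dYK : Disjoint Y K) (hB : ∀ x ∈ X, ∀ y ∈ Y, B.Adj x y)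
    (hK : K.card + 2 ≤ 2 * g) (hX : d + 3 ≤ X.card + 2 * g) (hY : d + 1 ≤ Y.card + 3 * g) :
    False := by
  have hgd : g ≤ d := by omega
  have low : ∀ k, (nb B k).card < d := by
    intro k
    by_contra n
    have a1 := small hgd hn k (nb B k ∩ X) (nb Bᶜ k ∩ Y)
      (fun a h => mem_nb.1 (mem_inter.1 h).1) (fun b h => (mem_nb.1 (mem_inter.1 h).1).ne.symm)
      (fun a h b h' _ => hB a (mem_inter.1 h).2 b (mem_inter.1 h').2)
      (Or.inr ⟨by omega, fun b h => (mem_nb.1 (mem_inter.1 h).1).2⟩)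
    have a2 := small hgd hn k (nb B k ∩ Y) (nb Bᶜ k ∩ X)
      (fun a h => mem_nb.1 (mem_inter.1 h).1) (fun b h => (mem_nb.1 (mem_inter.1 h).1).ne.symm)
      (fun a h b h' _ => (hB b (mem_inter.1 h').2 a (mem_inter.1 h).2).symm)
      (Or.inr ⟨by omega, fun b h => (mem_nb.1 (mem_inter.1 h).1).2⟩)
    have a3 := part_card (nb B k) X Y K hall
    have a4 := part_card (nb Bᶜ k) X Y K hall
    have a5 := side_card B k X
    have a6 := side_card B k Y
    have a7 := nb_add B k
    have a8 := m1 k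
    have a9 : (nb B k ∩ K).card ≤ K.card := card_le_card inter_subset_right
    have a10 : (nb Bᶜ k ∩ K).card ≤ K.card := card_le_card inter_subset_right
    omega
  have side : ∀ P Q : Finset V, Disjoint Q K → (∀ x ∈ P, ∀ y ∈ Q, B.Adj x y) →
      ∀ x ∈ P, (nb B x ∩ K).card + Q.card < d := by
    intro P Q dj h x hx
    have e1 : nb B x ∩ K ∪ Q ⊆ nb B x :=
      union_subset inter_subset_left (fun y hy => mem_nb.2 (h x hx y hy))
    have e2 := card_le_card e1
    rw [card_union_of_disjoint (dj.symm.mono_left inter_subset_right)] at e2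
    have := low x
    omega
  have sX := side X Y dYK hB
  have sY := side Y X dXK (fun y hy x hx => (hB x hx y hy).symm)
  obtain ⟨x0, hx0⟩ : X.Nonempty := card_pos.1 (by omega)
  obtain ⟨y0, hy0⟩ : Y.Nonempty := card_pos.1 (by omega)
  obtain ⟨t, ht⟩ : ∃ t, Y.card + t + 1 = d := ⟨d - 1 - Y.card, by have := sX x0 hx0; omega⟩
  obtain ⟨s, hs⟩ : ∃ s, X.card + s + 1 = d := ⟨d - 1 - X.card, by have := sY y0 hy0; omega⟩
  have tot := part_card univ X Y K hall
  simp only [univ_inter, card_univ] at tot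
  have dc : ∀ P : Finset V, ∑ k ∈ K, (nb B k ∩ P).card = ∑ x ∈ P, (nb B x ∩ K).card := by
    intro P
    classical
    have e : ∀ (S T : Finset V), ∑ k ∈ S, (nb B k ∩ T).card =
        ∑ k ∈ S, ∑ x ∈ T, if B.Adj k x then 1 else 0 := by
      intro S T
      refine sum_congr rfl fun k _ => ?_
      rw [← card_filter]
      congr 1
      ext w
      simp [mem_nb, and_comm]
    rw [e, e, sum_comm]
    simp only [B.adj_comm]
  have u1 : ∑ x ∈ X, (nb B x ∩ K).card ≤ X.card * t := by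
    rw [← smul_eq_mul]
    exact sum_le_card_nsmul X _ t (fun x hx => by have := sX x hx; omega)
  have u2 : ∑ x ∈ Y, (nb B x ∩ K).card ≤ Y.card * s := by
    rw [← smul_eq_mul]
    exact sum_le_card_nsmul Y _ s (fun x hx => by have := sY x hx; omega)
  obtain ⟨e, he⟩ : ∃ e, e + g + K.card = d := ⟨d - g - K.card, by omega⟩
  have l1 : K.card * e ≤ ∑ k ∈ K, ((nb B k ∩ X).card + (nb B k ∩ Y).card) := by
    rw [← smul_eq_mul]
    refine card_nsmul_le_sum K _ e (fun k hk => ?_)
    have a3 := part_card (nb B k) X Y K hall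
    have a7 := nb_add B k
    have a8 := m2 k
    have a9 : (nb B k ∩ K).card < K.card :=
      card_lt_card ⟨inter_subset_right, fun h => (mem_nb.1 (mem_inter.1 (h hk)).1).ne rfl⟩
    omega
  rw [sum_add_distrib, dc, dc] at l1
  exact arith hg hd ht hs he hK (by omega) (l1.trans (Nat.add_le_add u1 u2))

theorem from_max {G : SimpleGraph V} {d g a : ℕ} (hg : 1 ≤ g) (hlin : 7 * g ≤ d + 1)
    (hd : 6 * g ^ 2 ≤ (a + 1) * d) (hN : 2 * d + a ≤ Fintype.card V + 1)
    (hR : ¬ (spider d g).IsContained G)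
    (hB : ¬ (spider d g).IsContained Gᶜ) {v : V} (hv : d ≤ (nb G v).card)
    (hm : (nb G v).card < d + g → ∀ u, (nb G u).card < d + g ∧ (nb Gᶜ u).card < d + g) :
    False := by
  have hgd : g ≤ d := by omega
  have av := nb_add G v
  by_cases big : d + g ≤ (nb G v).card
  · obtain ⟨K, k1, k2⟩ := cover hgd hR v (fun a b => G.Adj v a ∧ G.Adj a b ∧ b ≠ v)
      (fun _ _ h => h) (Or.inl big)
    have c1 := le_card_sdiff K (nb G v)
    obtain ⟨u, hu⟩ : (nb G v \ K).Nonempty := card_pos.1 (by omega)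
    have bl : ∀ a ∈ nb G v \ K, ∀ b, b ∉ K → b ≠ v → a ≠ b → Gᶜ.Adj a b := by
      intro a ha b hb hbv hab
      refine ⟨hab, fun h => ?_⟩
      rcases k2 a b ⟨mem_nb.1 (mem_sdiff.1 ha).1, h, hbv⟩ with j | j
      exacts [(mem_sdiff.1 ha).2 j, hb j]
    have c2 := le_card_sdiff (insert u (insert v K)) (univ : Finset V)
    have c3 := card_insert_le u (insert v K)
    have c4 := card_insert_le v K
    have c5 := pred_card_le_card_erase (s := nb G v \ K) (a := u)
    have mq : ∀ b ∈ univ \ insert u (insert v K), b ≠ u ∧ b ≠ v ∧ b ∉ K := by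
      intro b hb
      simpa [not_or] using hb
    have c6 : (univ \ insert u (insert v K)).card ≤ (nb Gᶜ u).card :=
      card_le_card fun b hb =>
        mem_nb.2 (bl u hu b (mq b hb).2.2 (mq b hb).2.1 (mq b hb).1.symm)
    rw [card_univ] at c2
    have := small hgd hB u ((nb G v \ K).erase u) (univ \ insert u (insert v K))
      (fun a ha => bl u hu a (mem_sdiff.1 (mem_erase.1 ha).2).2
        (mem_nb.1 (mem_sdiff.1 (mem_erase.1 ha).2).1).ne.symm (mem_erase.1 ha).1.symm)
      (fun b hb => (mq b hb).1)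
      (fun a ha b hb hab => bl a (mem_erase.1 ha).2 b (mq b hb).2.2 (mq b hb).2.1 hab)
      (Or.inl (by omega))
    omega
  · have hm' := hm (by omega)
    obtain ⟨K, k1, k2⟩ := cover hgd hR v (fun a b => G.Adj v a ∧ G.Adj a b ∧ Gᶜ.Adj v b)
      (fun _ _ h => ⟨h.1, h.2.1, h.2.2.ne.symm⟩) (Or.inr ⟨hv, fun _ _ h => h.2.2.2⟩)
    have c1 := le_card_sdiff K (nb G v)
    have c2 := le_card_sdiff K (nb Gᶜ v)
    have c3 : (K.erase v).card ≤ K.card := card_erase_le
    have nv : v ∉ nb G v \ K := fun h => (mem_nb.1 (mem_sdiff.1 h).1).ne rfl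
    refine final (B := Gᶜ) hg hlin hd hN hB (fun u => (hm' u).2)
      (fun u => by rw [compl_compl]; exact (hm' u).1)
      (X := insert v (nb G v \ K)) (Y := nb Gᶜ v \ K) (K := K.erase v) (fun w => ?_) ?_ ?_
      (fun x hx y hy => ?_) (by omega) (by rw [card_insert_of_notMem nv]; omega) (by omega)
    · simp only [mem_insert, mem_sdiff, mem_nb, mem_erase, SimpleGraph.compl_adj]
      have : w ≠ v → v ≠ w := Ne.symm
      tauto
    · rw [disjoint_left]
      intro w h h'
      rcases mem_insert.1 h with e | e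
      exacts [(mem_erase.1 h').1 e, (mem_sdiff.1 e).2 (mem_erase.1 h').2]
    · rw [disjoint_left]
      exact fun w h h' => (mem_sdiff.1 h).2 (mem_erase.1 h').2
    · have j := mem_nb.1 (mem_sdiff.1 hy).1
      rcases mem_insert.1 hx with e | e
      · rw [e]; exact j
      · have j' := mem_nb.1 (mem_sdiff.1 e).1
        refine ⟨fun k => j.2 (k ▸ j'), fun h => ?_⟩
        rcases k2 x y ⟨j', h, j⟩ with i | i
        exacts [(mem_sdiff.1 e).2 i, (mem_sdiff.1 hy).2 i]

theorem big_degree (G : SimpleGraph V) {d a : ℕ} (hd : 1 ≤ d) (ha : 1 ≤ a ∨ Even d)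
    (hN : Fintype.card V = 2 * d - 1 + a) :
    ∃ v, d ≤ (nb G v).card ∨ d ≤ (nb Gᶜ v).card := by
  classical
  by_contra n
  push Not at n
  rcases Nat.eq_zero_or_pos a with rfl | a0
  · have e := ha.resolve_left (by omega)
    rw [add_zero] at hN
    have h1 : ∀ v, G.degree v = d - 1 := by
      intro v
      have a1 := nb_add G v
      have a2 := n v
      have a3 : G.degree v = (nb G v).card := by
        rw [← SimpleGraph.card_neighborFinset_eq_degree]
        congr 1
        ext w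
        simp [mem_nb]
      omega
    have h2 := G.sum_degrees_eq_twice_card_edges
    simp only [h1, sum_const, card_univ, smul_eq_mul, hN] at h2
    obtain ⟨k, rfl⟩ := e
    have h3 : Odd ((2 * (k + k) - 1) * (k + k - 1)) :=
      Odd.mul ⟨2 * k - 1, by omega⟩ ⟨k - 1, by omega⟩
    rw [h2] at h3
    exact (Nat.not_odd_iff_even.2 (even_two_mul _)) h3
  · obtain ⟨v⟩ : Nonempty V := Fintype.card_pos_iff.1 (by omega)
    have a1 := nb_add G v
    have a2 := n v
    omega

theorem upper {d g a : ℕ} (hg : 1 ≤ g) (hlin : 7 * g ≤ d + 1) (hd : 6 * g ^ 2 ≤ (a + 1) * d)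
    (ha : 1 ≤ a ∨ Even d) : Arrows (spider d g) (2 * d - 1 + a) := by
  intro G
  by_contra n
  rw [not_or] at n
  have hc := Fintype.card_fin (2 * d - 1 + a)
  have hN : 2 * d + a ≤ Fintype.card (Fin (2 * d - 1 + a)) + 1 := by rw [hc]; omega
  have n1 : ¬ (spider d g).IsContained Gᶜᶜ := by rw [compl_compl]; exact n.1
  by_cases b : ∃ v, d + g ≤ (nb G v).card ∨ d + g ≤ (nb Gᶜ v).card
  · obtain ⟨v, h | h⟩ := b
    · exact from_max hg hlin hd hN n.1 n.2 (v := v) (by omega) (fun k => by omega)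
    · exact from_max hg hlin hd hN n.2 n1 (v := v) (by omega) (fun k => by omega)
  · push Not at b
    obtain ⟨v, h | h⟩ := big_degree G (d := d) (by omega) ha hc
    · exact from_max hg hlin hd hN n.1 n.2 h (fun _ => b)
    · exact from_max hg hlin hd hN n.2 n1 h (fun _ u => by rw [compl_compl]; exact (b u).symm)

end Pool.Agent.Lib.MP_06e9af_co.Sp
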